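import Pool.Agent.H29.SX.Targets

/-!
# MP_c65535_nt, row CDF of the board `shx_modules`: conjugates over a cyclotomic field
-/

set_option autoImplicit false

namespace Pool.Agent.H40.SX

open NumberField Height Finset Polynomial Pool.Agent.H24.RD Pool.Agent.H23.RDD Pool.Agent.H29.RQ
  Pool.Agent.H29.SX

/-- An automorphism which fixes the generators fixes the level field. -/
theorem cdf_fix {F Ω : Type} [Field F] [Field Ω] [Algebra F Ω] (S : Set Ω) (u : Ω ≃ₐ[F] Ω)
    (hu : ∀ z ∈ S, u z = z) : ∀ z ∈ IntermediateField.adjoin F S, u z = z := by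
  intro z hz
  induction hz using IntermediateField.adjoin_induction with
  | mem x hx => exact hu x hx
  | algebraMap x => exact u.commutes x
  | add x y _ _ hx hy => rw [map_add, hx, hy]
  | inv x _ hx => rw [map_inv₀, hx]
  | mul x y _ _ hx hy => rw [map_mul, hx, hy]

theorem pf_CDF (h : T_LVB) : T_CDF := by
  classical
  intro F Ω _ _ _ _ _ _ _ r γ hγ N K d hN hKN β hβ
  obtain ⟨S, hS, hSd⟩ := hβ
  have hK : 0 < K := Nat.pos_of_dvd_of_pos hKN hN
  have hγΩ : ∀ i, algebraMap F Ω (γ i) ≠ 0 := fun i => by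
    rw [Ne, map_eq_zero]
    exact hγ i
  have hne : ((K : ℕ) : Ω) ≠ 0 := by exact_mod_cast hK.ne'
  have : NeZero ((K : ℕ) : Ω) := ⟨hne⟩
  have : NeZero K := ⟨hK.ne'⟩
  obtain ⟨ζ, hζ⟩ := HasEnoughRootsOfUnity.exists_primitiveRoot Ω K
  -- the roots
  have hθ : ∀ i, ∃ θ : Ω, θ ^ K = algebraMap F Ω (γ i) := fun i =>
    IsAlgClosed.exists_pow_nat_eq _ hK
  choose θ hθ using hθ
  have hθ0 : ∀ i, θ i ≠ 0 := by
    intro i h0
    have h4 := hθ i
    rw [h0, zero_pow hK.ne'] at h4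
    exact hγΩ i h4.symm
  have hk : ∀ (s : Ω ≃ₐ[F] Ω) (i : Fin r), ∃ k : Fin K, s (θ i) = θ i * ζ ^ (k : ℕ) := by
    intro s i
    have h1 : (s (θ i) / θ i) ^ K = 1 := by
      rw [div_pow, ← map_pow, hθ, s.commutes, div_self (hγΩ i)]
    obtain ⟨k, hk, hk2⟩ := hζ.eq_pow_of_pow_eq_one h1
    refine ⟨⟨k, hk⟩, ?_⟩
    rw [hk2]
    exact (mul_div_cancel₀ _ (hθ0 i)).symm
  choose κ hκ using hk
  let T : Finset Ω := (Finset.univ : Finset (Fin r → Fin K)).biUnion fun δ =>
    if h : ∃ s : Ω ≃ₐ[F] Ω, (∀ z ∈ Lv F Ω γ N 1, s z = z) ∧ κ s = δ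
      then S.image h.choose else ∅
  refine ⟨T, ?_, ?_⟩
  · have h1 : T.card ≤ (Finset.univ : Finset (Fin r → Fin K)).card * d := by
      refine Finset.card_biUnion_le_card_mul _ _ _ ?_
      intro δ _
      split_ifs with h
      · exact Finset.card_image_le.trans hS
      · simp
    refine h1.trans (le_of_eq ?_)
    rw [Finset.card_univ, Fintype.card_pi]
    simp
  · intro s hs
    have hex : ∃ s' : Ω ≃ₐ[F] Ω, (∀ z ∈ Lv F Ω γ N 1, s' z = z) ∧ κ s' = κ s := ⟨s, hs, rfl⟩
    have hT : ∀ x ∈ S, hex.choose x ∈ T := by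
      intro x hx
      rw [Finset.mem_biUnion]
      refine ⟨κ s, Finset.mem_univ _, ?_⟩
      rw [dif_pos hex]
      exact Finset.mem_image_of_mem _ hx
    obtain ⟨h0, h00⟩ := hex.choose_spec
    set s0 := hex.choose with hs0
    have h2 : ∀ i, s0 (θ i) = s (θ i) := fun i => by rw [hκ, hκ, h00]
    have hinv : ∀ x y : Ω, s0 x = y → s0.symm y = x := fun x y h => by
      rw [← h, AlgEquiv.symm_apply_apply]
    let u : Ω ≃ₐ[F] Ω := s.trans s0.symm
    have hu : ∀ x, u x = s0.symm (s x) := fun x => rfl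
    have huN : ∀ z : Ω, z ^ N = 1 → u z = z := by
      intro z hz
      have h3 : z ∈ Lv F Ω γ N 1 := IntermediateField.subset_adjoin _ _ (Or.inl hz)
      rw [hu, hs z h3]
      exact hinv _ _ (h0 z h3)
    have hfix : ∀ z ∈ Lv F Ω γ N K, u z = z := by
      refine cdf_fix _ u ?_
      rintro z (hz | ⟨i, hz⟩)
      · exact huN z hz
      · have h5 : (z / θ i) ^ N = 1 := by
          obtain ⟨c, hc⟩ := hKN
          rw [hc, pow_mul, div_pow, hz, hθ, div_self (hγΩ i), one_pow]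
        have h6 := huN _ h5
        have h7 : u (θ i) = θ i := by
          rw [hu]
          exact hinv _ _ (h2 i)
        rw [map_div₀, h7, div_left_inj' (hθ0 i)] at h6
        exact h6
    have h8 := hT _ (hSd u hfix)
    rw [hu, AlgEquiv.apply_symm_apply] at h8
    exact h8

end Pool.Agent.H40.SX
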